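import Pool.Agent.W528.HD.Stm

/-!
# The arithmetic of the exponents
-/

set_option autoImplicit false

namespace Pool.Agent.W160.HD.AP

open Finset

theorem key {x r : ℕ} (hr : 0 < r) : x % r + ((r - 1) * x) % r ≤ r := by
  have h1 : r ∣ x % r + ((r - 1) * x) % r := by
    rw [Nat.dvd_iff_mod_eq_zero, ← Nat.add_mod]
    have : x + (r - 1) * x = r * x := by
      obtain ⟨k, rfl⟩ : ∃ k, r = k + 1 := ⟨r - 1, by omega⟩
      rw [Nat.add_sub_cancel]; ring
    rw [this, Nat.mul_mod_right]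
  obtain ⟨k, hk⟩ := h1
  have h2 := Nat.mod_lt x hr
  have h3 := Nat.mod_lt ((r - 1) * x) hr
  have h4 : k < 2 := by
    by_contra hc
    push Not at hc
    have := Nat.mul_le_mul_left r hc
    omega
  have h5 : k ≤ 1 := by omega
  have := Nat.mul_le_mul_left r h5
  omega

theorem main : Pool.Agent.W528.HD.AP := by
  intro p r c F D hp hr hrp hc hcr hpc hF m a ha hsum hD j s hj hjp hs
  have hai : ∀ i, a i < p := by
    intro i
    have h1 : a i ≤ ∑ i, a i := Finset.single_le_sum (fun i _ => Nat.zero_le (a i)) (Finset.mem_univ i)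
    have h2 : ∑ i, a i ≤ 2 * D * ∑ i, a i := Nat.le_mul_of_pos_left _ (by omega)
    omega
  have hcopj : Nat.Coprime j p := (Nat.coprime_of_lt_prime (by omega) hjp hp).symm
  have hcopa : ∀ i, Nat.Coprime (a i) p := fun i =>
    (Nat.coprime_of_lt_prime (Nat.pos_iff_ne_zero.1 (ha i)) (hai i) hp).symm
  have hpos : ∀ i, 0 < j * a i % p := by
    intro i
    rcases Nat.eq_zero_or_pos (j * a i % p) with h | h
    · exfalso
      have h1 : p ∣ j * a i := Nat.dvd_of_mod_eq_zero h
      have h2 : Nat.Coprime (j * a i) p := Nat.Coprime.mul_left hcopj (hcopa i)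
      have h3 := Nat.Coprime.eq_one_of_dvd h2.symm h1
      exact hp.one_lt.ne' h3
    · exact h
  refine ⟨hpos, ?_⟩
  -- inverse of `j`
  obtain ⟨ji, hji⟩ : ∃ ji : ℕ, ji * j ≡ 1 [MOD p] := by
    obtain ⟨y, -, hy⟩ := Nat.exists_mul_mod_eq_one_of_coprime hcopj hp.one_lt
    refine ⟨y, ?_⟩
    show y * j % p = 1 % p
    rw [mul_comm, hy, Nat.mod_eq_of_lt hp.one_lt]
  have hc1 : c ≡ 1 [MOD p] := by
    have h1 : 1 ≤ c := hc.one_lt.le
    exact ((Nat.modEq_iff_dvd' h1).2 hpc).symm
  have hce : ∀ e, c ^ e ≡ 1 [MOD p] := fun e => by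
    have := hc1.pow e
    rwa [one_pow] at this
  -- the chosen multiplier
  have main' : ∀ t : ℕ, Nat.Coprime t r → ∃ j' : ℕ, j'.Coprime (p * r) ∧ j' * j ≡ 1 [MOD p] ∧
      j' ≡ t [MOD r] := by
    intro t ht
    obtain ⟨k, hk1, hk2⟩ := Nat.chineseRemainder hrp t ji
    have h1 : k * j ≡ 1 [MOD p] := (hk2.mul_right j).trans hji
    refine ⟨k, ?_, h1, hk1⟩
    refine Nat.Coprime.mul_right ?_ ?_
    · have h2 : Nat.Coprime (k * j) p := by
        unfold Nat.Coprime
        rw [h1.gcd_eq]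
        exact Nat.gcd_one_left p
      exact Nat.Coprime.coprime_mul_right h2
    · unfold Nat.Coprime
      rw [hk1.gcd_eq]
      exact ht
  have hfirst : ∀ j' : ℕ, j' * j ≡ 1 [MOD p] →
      D * ∑ i, ∑ e ∈ range F, (j' * (r * (j * a i % p)) * c ^ e) % (p * r)
        = D * (F * (r * ∑ i, a i)) := by
    intro j' hj'
    congr 1
    have h1 : ∀ i, ∀ e, (j' * (r * (j * a i % p)) * c ^ e) % (p * r) = r * a i := by
      intro i e
      have h2 : j' * (r * (j * a i % p)) * c ^ e = r * (j' * (j * a i % p) * c ^ e) := by ring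
      rw [h2, mul_comm p r, Nat.mul_mod_mul_left]
      congr 1
      have h3 : j' * (j * a i % p) * c ^ e ≡ a i [MOD p] := by
        calc j' * (j * a i % p) * c ^ e ≡ j' * (j * a i) * 1 [MOD p] :=
              ((Nat.mod_modEq _ _).mul_left j').mul (hce e)
          _ = (j' * j) * a i := by ring
          _ ≡ 1 * a i [MOD p] := hj'.mul_right _
          _ = a i := one_mul _
      have h4 : j' * (j * a i % p) * c ^ e % p = a i % p := h3
      rw [h4, Nat.mod_eq_of_lt (hai i)]
    simp_rw [h1]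
    simp only [Finset.sum_const, Finset.card_range, smul_eq_mul]
    rw [← Finset.mul_sum, ← Finset.mul_sum]
  have hsec : ∀ (j' t : ℕ), j' ≡ t [MOD r] → ∑ e ∈ range F, (j' * (p * s) * c ^ e) % (p * r)
      = p * ∑ e ∈ range F, (t * (s * c ^ e)) % r := by
    intro j' t hj'
    rw [Finset.mul_sum]
    refine Finset.sum_congr rfl fun e _ => ?_
    have h2 : j' * (p * s) * c ^ e = p * (j' * (s * c ^ e)) := by ring
    rw [h2, Nat.mul_mod_mul_left]
    congr 1
    exact hj'.mul_right _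
  have hsumle : ∑ e ∈ range F, (1 * (s * c ^ e)) % r +
      ∑ e ∈ range F, ((r - 1) * (s * c ^ e)) % r ≤ F * r := by
    rw [← Finset.sum_add_distrib]
    calc ∑ e ∈ range F, ((1 * (s * c ^ e)) % r + ((r - 1) * (s * c ^ e)) % r)
        ≤ ∑ e ∈ range F, r := Finset.sum_le_sum fun e _ => by
          rw [one_mul]; exact key hr
      _ = F * r := by simp
  have hfin : ∀ A S : ℕ, A = D * (F * (r * ∑ i, a i)) → 2 * S ≤ F * r →
      A + p * S < F * (p * r) := by
    intro A S hA hS
    have h1 : 2 * A = F * r * (2 * D * ∑ i, a i) := by rw [hA]; ring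
    have h2 : F * r * (2 * D * ∑ i, a i) < F * r * p :=
      Nat.mul_lt_mul_of_pos_left hsum (Nat.mul_pos hF hr)
    have h3 : p * (2 * S) ≤ p * (F * r) := Nat.mul_le_mul_left p hS
    have h4 : F * r * p = F * (p * r) := by ring
    have h5 : p * (F * r) = F * (p * r) := by ring
    have h6 : p * (2 * S) = 2 * (p * S) := by ring
    omega
  by_cases h : 2 * ∑ e ∈ range F, (1 * (s * c ^ e)) % r ≤ F * r
  · obtain ⟨j', h1, h2, h3⟩ := main' 1 (Nat.coprime_one_left r)
    refine ⟨j', h1, ?_⟩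
    rw [hsec j' 1 h3]
    exact hfin _ _ (hfirst j' h2) h
  · have hcop : Nat.Coprime (r - 1) r := by
      have : Nat.Coprime (r - 1) (r - 1 + 1) := by simp
      rwa [Nat.sub_add_cancel hr] at this
    obtain ⟨j', h1, h2, h3⟩ := main' (r - 1) hcop
    refine ⟨j', h1, ?_⟩
    rw [hsec j' (r - 1) h3]
    exact hfin _ _ (hfirst j' h2) (by omega)

end Pool.Agent.W160.HD.AP
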